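import Pool.Agent.H34.TAM.Stmts2

/-!
Board aut, row DPE: polynomials and the free difference quotients.
-/

set_option autoImplicit false

noncomputable section

open Filter
open scoped Topology TensorProduct

namespace Pool.AUT

open Pool.CGR Pool.CGS Pool.TAM MulOpposite

namespace H1

theorem pe_eq {α A : Type} [Ring A] [Algebra ℂ A] (x : α → A) (P : List α →₀ ℂ) :
    pe x P = Finsupp.linearCombination ℂ (ev x) P := rfl

theorem ev_append {α A : Type} [Ring A] (x : α → A) (u v : List α) :
    ev x (u ++ v) = ev x u * ev x v := by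
  unfold ev
  rw [List.map_append, List.prod_append]

theorem pe_single {α A : Type} [Ring A] [Algebra ℂ A] (x : α → A) (w : List α) (r : ℂ) :
    pe x (Finsupp.single w r) = r • ev x w := by
  rw [pe_eq, Finsupp.linearCombination_single]

theorem dpe_one (m : ℕ) (q : Fr m) : ∃ P : List (Fin m) →₀ ℂ, pe io P = q := by
  induction q using FreeAlgebra.induction with
  | grade0 r =>
    refine ⟨Finsupp.single [] r, ?_⟩
    rw [pe_single, Algebra.algebraMap_eq_smul_one]
    rfl
  | grade1 j =>
    refine ⟨Finsupp.single [j] 1, ?_⟩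
    rw [pe_single, one_smul]
    exact mul_one _
  | mul a b ha hb =>
    obtain ⟨P, rfl⟩ := ha
    obtain ⟨Q, rfl⟩ := hb
    refine ⟨P.sum fun u r => Q.sum fun v s => Finsupp.single (u ++ v) (r * s), ?_⟩
    rw [pe_eq, map_finsuppSum]
    unfold pe
    rw [Finsupp.sum_mul]
    refine Finsupp.sum_congr fun u _ => ?_
    rw [map_finsuppSum, Finsupp.mul_sum]
    refine Finsupp.sum_congr fun v _ => ?_
    rw [Finsupp.linearCombination_single, ev_append, smul_mul_smul_comm]
  | add a b ha hb =>
    obtain ⟨P, rfl⟩ := ha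
    obtain ⟨Q, rfl⟩ := hb
    exact ⟨P + Q, by rw [pe_eq, pe_eq, pe_eq, map_add]⟩

theorem lift_ev {m : ℕ} {A : Type} [Ring A] [Algebra ℂ A] (x : Fin m → A) (w : List (Fin m)) :
    FreeAlgebra.lift ℂ x (ev io w) = ev x w := by
  unfold ev
  rw [map_list_prod, List.map_map]
  congr 1
  refine List.map_congr_left fun j _ => ?_
  exact FreeAlgebra.lift_ι_apply x j

theorem D_one {m : ℕ} {D : Fin m → (Fr m →ₗ[ℂ] Te m)} (hD : IsPd D) (i : Fin m) : D i 1 = 0 := by
  have h := hD.mul i 1 1
  rw [mul_one, op_one, ← Algebra.TensorProduct.one_def, one_mul] at h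
  have h2 : D i 1 + D i 1 = D i 1 + 0 := by rw [add_zero]; exact h.symm
  exact add_left_cancel h2

theorem D_word {m : ℕ} {D : Fin m → (Fr m →ₗ[ℂ] Te m)} (hD : IsPd D) (i : Fin m)
    (w : List (Fin m)) : D i (ev io w) = ∑ k ∈ Finset.range w.length,
      if w[k]? = some i then (ev io (w.take k)) ⊗ₜ[ℂ] op (ev io (w.drop (k + 1))) else 0 := by
  induction w with
  | nil =>
    have h : ev (io : Fin m → Fr m) [] = 1 := rfl
    rw [h, D_one hD]
    rfl
  | cons j w ih =>
    have h : ev (io : Fin m → Fr m) (j :: w) = io j * ev io w := rfl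
    rw [h, hD.mul, hD.gen, ih, List.length_cons, Finset.sum_range_succ', Finset.mul_sum]
    congr 1
    · refine Finset.sum_congr rfl fun k _ => ?_
      rw [List.getElem?_cons_succ, List.take_succ_cons, List.drop_succ_cons]
      split_ifs
      · rw [Algebra.TensorProduct.tmul_mul_tmul, one_mul]
        rfl
      · rw [mul_zero]
    · rw [List.getElem?_cons_zero, List.take_zero, List.drop_succ_cons, List.drop_zero]
      by_cases hji : j = i
      · rw [if_pos hji, if_pos (by rw [hji]), mul_one]
        rfl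
      · rw [if_neg hji, if_neg (fun h' => hji (Option.some.inj h')), mul_zero]

theorem tt_tmul {m : ℕ} (t : Fr m →ₗ[ℂ] ℂ) (a b : Fr m) :
    tt t (a ⊗ₜ[ℂ] op b) = t a * t b := rfl

end H1

open H1

theorem dpe_thm : DPEStmt := by
  intro m A _ _ τ x D hD
  refine ⟨dpe_one m, fun P => ?_, fun i P => ?_⟩
  · unfold pe
    rw [map_finsuppSum]
    refine Finsupp.sum_congr fun w _ => ?_
    rw [map_smul, lift_ev]
  · have h1 : ∀ w : List (Fin m), dq (fun w => τ (ev x w)) i w =
        tt (tx τ x) (D i (ev io w)) := by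
      intro w
      rw [D_word hD, map_sum]
      unfold dq
      refine Finset.sum_congr rfl fun k _ => ?_
      split_ifs
      · rw [tt_tmul]
        unfold tx
        rw [LinearMap.comp_apply, LinearMap.comp_apply, AlgHom.toLinearMap_apply,
          AlgHom.toLinearMap_apply, lift_ev, lift_ev]
      · rw [map_zero]
    unfold dp pe
    rw [map_finsuppSum, map_finsuppSum]
    refine Finsupp.sum_congr fun w _ => ?_
    rw [map_smul, map_smul, smul_eq_mul, h1]

end Pool.AUT
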