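import Pool.Agent.H34.TAM.Stmts2

/-!
Board aut, row JAC: the change of the conjugate variables is a cyclic gradient.
-/

set_option autoImplicit false

noncomputable section

open Filter
open scoped Topology TensorProduct

namespace Pool.AUT

open Pool.CGR Pool.CGS Pool.TAM MulOpposite

theorem jac_thm (h1 : MATStmt) (h2 : GRAStmt) (h3 : TRMStmt) (h4 : TDRStmt) : JACStmt := by
  intro m D hD φ ψ hφψ hψφ t ht
  obtain ⟨hM'M, hMM', hder⟩ := h1 m D hD φ ψ hφψ hψφ
  obtain ⟨w, hw⟩ := h2 m t ht _ _ hM'M hMM'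
  obtain ⟨_, hT⟩ := h4 m
  obtain ⟨htr, hd2, _⟩ := hT t
  have htt := htr ht
  refine ⟨∑ j, re t (w j j), fun δ hδ P hP => ?_⟩
  have hN := hder δ hδ P hP
  have hκ := (h3 m (Te m)).1 (tt t) htt
  have hw' := hw δ hδ
  set M : Matrix (Fin m) (Fin m) (Te m) := Matrix.of fun j k => D k (φ (io j)) with hMdef
  set M' : Matrix (Fin m) (Fin m) (Te m) := Matrix.of fun k j => ph φ (D j (ψ (io k))) with hM'def
  set N : Matrix (Fin m) (Fin m) (Te m) := Matrix.of fun j l => ph φ (D l (P j)) with hNdef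
  set N0 : Matrix (Fin m) (Fin m) (Te m) := Matrix.of fun l k => D k (δ (io l)) with hN0def
  have hmap : (Matrix.of fun j k => d2 δ (D k (φ (io j))) : Matrix (Fin m) (Fin m) (Te m)) =
      M.map (d2 δ) := rfl
  rw [hmap] at hN
  have e1 : N = M.map (d2 δ) * M' + M * N0 * M' := by
    rw [← add_mul, ← hN, mul_assoc, hMM', mul_one]
  have e2 : ∑ j, tt t (N j j) = ∑ j, tt t ((M.map (d2 δ) * M') j j) +
      ∑ j, tt t ((M * N0 * M') j j) := by
    rw [← Finset.sum_add_distrib]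
    refine Finset.sum_congr rfl fun j _ => ?_
    rw [← map_add, ← Matrix.add_apply, ← e1]
  have e3 : ∑ j, tt t ((M * N0 * M') j j) = ∑ j, tt t (N0 j j) := by
    rw [hκ (M * N0) M', ← mul_assoc, hM'M, one_mul]
  rw [e3, hκ (M.map (d2 δ)) M', hw'] at e2
  have e4 : ∑ j, tt t (d2 δ (w j j)) = t (δ (∑ j, re t (w j j))) := by
    rw [map_sum, map_sum]
    exact Finset.sum_congr rfl fun j _ => hd2 δ (w j j)
  rw [e4] at e2
  have e5 : ∑ j, tt t (ph φ (D j (P j))) = ∑ j, tt t (N j j) := rfl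
  have e6 : ∑ k, tt t (D k (δ (io k))) = ∑ j, tt t (N0 j j) := rfl
  rw [e5, e6, e2, add_comm]

end Pool.AUT
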